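import Pool.Agent.W679.AM.Sharp

/-!
# A lower bound of the polar volume which is sharp both for symmetric bodies and for simplices in
every position

For a convex body `K` of `ℝⁿ` and `z ∈ int K` with `h(u) = sup_{x ∈ K} ⟨x - z, u⟩` let
`K'_z = {x : |⟨x, u⟩| (h(u) + h(-u)) ≤ h(u) h(-u) for all u}`.  Then
`|K'_z| |(K - z)°| ≥ 2ⁿ / n!`, with equality for a simplex and every interior point `z`.
If `K` is symmetric about `z` then `K'_z = (K - z)/2`, and this is Mahler's inequality.
-/

set_option autoImplicit false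

noncomputable section

open MeasureTheory
open scoped RealInnerProductSpace Pointwise

namespace Pool.Agent.Results.MP_5f4cdd_gt.AsymmetricPolar

variable {n : ℕ}

/-- convex bodies in `ℝⁿ` (in any position) -/
def Body (K : Set (EuclideanSpace ℝ (Fin n))) : Prop :=
  Convex ℝ K ∧ IsCompact K ∧ (interior K).Nonempty

/-- the support function of `K - z` -/
def supp (K : Set (EuclideanSpace ℝ (Fin n))) (z u : EuclideanSpace ℝ (Fin n)) : ℝ :=
  sSup ((fun x => ⟪x - z, u⟫) '' K)

/-- the symmetric body `K'_z` -/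
def harmonicBody (K : Set (EuclideanSpace ℝ (Fin n))) (z : EuclideanSpace ℝ (Fin n)) :
    Set (EuclideanSpace ℝ (Fin n)) :=
  {x | ∀ u, |⟪x, u⟫| * (supp K z u + supp K z (-u)) ≤ supp K z u * supp K z (-u)}

/-- the polar body `(K - z)°` -/
def polar (K : Set (EuclideanSpace ℝ (Fin n))) (z : EuclideanSpace ℝ (Fin n)) :
    Set (EuclideanSpace ℝ (Fin n)) := {y | ∀ x ∈ K, ⟪x - z, y⟫ ≤ 1}

/-- the standard simplex `Δ_n` -/
def simplex (n : ℕ) : Set (EuclideanSpace ℝ (Fin n)) := {x | (∀ i, 0 ≤ x i) ∧ ∑ i, x i ≤ 1}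

/-- **A sharp lower bound of the volume of the polar body in every position.** -/
theorem result (n : ℕ) :
    -- (1) the inequality for all bodies and all interior points
    (∀ K : Set (EuclideanSpace ℝ (Fin n)), Body K → ∀ z ∈ interior K,
      (2 : ℝ) ^ n / n.factorial ≤ volume.real (harmonicBody K z) * volume.real (polar K z)) ∧
    -- (2) equality for the simplex and every interior point `z` (all `z i > 0`, `∑ z i < 1`)
    (∀ z : EuclideanSpace ℝ (Fin n), (∀ i, 0 < z i) → ∑ i, z i < 1 →
      volume.real (harmonicBody (simplex n) z) * volume.real (polar (simplex n) z) =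
        (2 : ℝ) ^ n / n.factorial) ∧
    -- (3) the form with Minkowski combinations of `K` and `-K`
    (∀ K : Set (EuclideanSpace ℝ (Fin n)), Body K → ∀ z ∈ interior K, ∀ θ : ℝ,
      (2 : ℝ) ^ n / n.factorial ≤
        volume.real ((1 - θ) ^ 2 • K + θ ^ 2 • (-K)) * volume.real (polar K z)) := by
  exact ⟨fun K hK z hz => W679AM.asym_real hK.2.1 hK.1 hz, fun z h1 h2 => W679AM.sharp h1 h2,
    fun K hK z hz θ => W679AM.theta_bound hK.2.1 hK.1 hz θ⟩

end Pool.Agent.Results.MP_5f4cdd_gt.AsymmetricPolar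

end
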