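import Pool.Agent.W570.AV.A5

/-!
# The Mahler volume averaged over all positions of the origin (the case `p = ∞`)

For a convex body `K` of `ℝⁿ` the harmonic mean, over all positions `z ∈ K` of the origin, of the
Mahler volume `M_∞(K - z)` is at least the same mean for a simplex, which is `(2n+1)!/(n!)²`.  More
generally, for every weight `φ ≥ 0` the mean over `z ∈ K` of `φ(z) / M_∞(K - z)` is at most
`∫₀¹ (s(1-s))ⁿ E φ(sU + (1-s)V) ds` with independent random points `U, V` of `K`, with equality for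
the simplex and every weight.  This comes from a pointwise bound of `1 / M_∞(K - z)`, which is an
equality for almost every `z` in the simplex.
-/

set_option autoImplicit false

noncomputable section

open MeasureTheory
open scoped ENNReal Pointwise

namespace Pool.Agent.Results.MP_5f4cdd_gt.AveragedMahler

/-- convex bodies in `ℝⁿ` (in any position) -/
def Body {n : ℕ} (K : Set (Fin n → ℝ)) : Prop := Convex ℝ K ∧ IsCompact K ∧ (interior K).Nonempty

/-- The classical Mahler volume `M_∞(K) = vol(K) ∫ exp(-h_K(y)) dy` (the case `p = ∞`), where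
`h_K(y) = sup_{x ∈ K} ⟨x, y⟩`. -/
def mahlerInf {n : ℕ} (K : Set (Fin n → ℝ)) : ℝ≥0∞ :=
  volume K * ∫⁻ y : Fin n → ℝ, ENNReal.ofReal
    (Real.exp (-(sSup ((fun x : Fin n → ℝ => ∑ i, x i * y i) '' K))))

/-- the translate `K - z` -/
def shift {n : ℕ} (K : Set (Fin n → ℝ)) (z : Fin n → ℝ) : Set (Fin n → ℝ) :=
  (fun x => x - z) '' K

/-- the standard simplex `Δ_n` -/
def simplex (n : ℕ) : Set (Fin n → ℝ) := {z | (∀ i, 0 ≤ z i) ∧ ∑ i, z i ≤ 1}

/-- the mean over `z ∈ K` of `φ(z) / M_∞(K - z)` -/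
def meanInv {n : ℕ} (φ : (Fin n → ℝ) → ℝ≥0∞) (K : Set (Fin n → ℝ)) : ℝ≥0∞ :=
  (volume K)⁻¹ * ∫⁻ z in K, φ z * (mahlerInf (shift K z))⁻¹

/-- the harmonic mean over `z ∈ K` of `M_∞(K - z)` -/
def harmonicMean {n : ℕ} (K : Set (Fin n → ℝ)) : ℝ≥0∞ := (meanInv (fun _ => 1) K)⁻¹

/-- `∫₀¹ (s(1-s))ⁿ E φ(sU + (1-s)V) ds`, where `U`, `V` are independent and uniform in `K` -/
def segmentMean {n : ℕ} (φ : (Fin n → ℝ) → ℝ≥0∞) (K : Set (Fin n → ℝ)) : ℝ≥0∞ :=
  ∫⁻ s in Set.Ioo (0:ℝ) 1, ENNReal.ofReal ((s * (1 - s)) ^ n) *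
    ((volume K)⁻¹ * ∫⁻ u in K, (volume K)⁻¹ * ∫⁻ v in K, φ (s • u + (1 - s) • v))

/-- `∫ |{s ∈ (0,1) : z + Y/s ∈ K, z - Y/(1-s) ∈ K}| dY`: the measure of the chords `[u,v]` of `K`
through `z`, with `z = s u + (1-s) v` -/
def chords {n : ℕ} (K : Set (Fin n → ℝ)) (z : Fin n → ℝ) : ℝ≥0∞ :=
  ∫⁻ Y : Fin n → ℝ, volume {s : ℝ | s ∈ Set.Ioo (0:ℝ) 1 ∧ z + s⁻¹ • Y ∈ K ∧
    z - (1 - s)⁻¹ • Y ∈ K}

section

open Pool.Agent.W570.AV Pool.Agent.H845R2 Pool.Agent.H845R3 Pool.Agent.H296R3.NM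

variable {n : ℕ}

lemma harmonic_simplex : harmonicMean (simplex n) =
    ENNReal.ofReal ((2 * n + 1).factorial / (n.factorial : ℝ) ^ 2) := by
  have h : meanInv (fun _ => 1) (simplex n) =
      ENNReal.ofReal ((n.factorial : ℝ) ^ 2 / (2 * n + 1).factorial) := mean_sx
  unfold harmonicMean
  rw [h, ← ENNReal.ofReal_inv_of_pos (by positivity), inv_div]

end

/-- **The Mahler volume averaged over all positions of the origin.** -/
theorem result (n : ℕ) :
    -- (1) the harmonic mean of `M_∞(K - z)` over `z ∈ K` is minimised by the simplex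
    (∀ K : Set (Fin n → ℝ), Body K → harmonicMean (simplex n) ≤ harmonicMean K) ∧
    harmonicMean (simplex n) = ENNReal.ofReal ((2 * n + 1).factorial / (n.factorial : ℝ) ^ 2) ∧
    -- (2) the same with an arbitrary weight, and equality for the simplex and every weight
    (∀ K : Set (Fin n → ℝ), Body K → ∀ φ : (Fin n → ℝ) → ℝ≥0∞, Measurable φ →
      meanInv φ K ≤ segmentMean φ K) ∧
    (∀ φ : (Fin n → ℝ) → ℝ≥0∞, Measurable φ →
      meanInv φ (simplex n) = segmentMean φ (simplex n)) ∧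
    -- (3) the pointwise inequality
    (∀ K : Set (Fin n → ℝ), Body K → ∀ z ∈ interior K,
      (mahlerInf (shift K z))⁻¹ ≤ (volume K)⁻¹ * chords K z) := by
  refine ⟨fun K hK => ?_, harmonic_simplex, fun K hK φ hφ =>
    Pool.Agent.W570.AV.mean_le hK.1 hK.2.1 hK.2.2 φ hφ, fun φ hφ =>
    Pool.Agent.W570.AV.mean_sx_w φ hφ, fun K hK z hz => Pool.Agent.W570.AV.point hK.1 hK.2.1 hz⟩
  have h1 : meanInv (fun _ => 1) K ≤ meanInv (fun _ => 1) (simplex n) := by
    have a1 : meanInv (fun _ => 1) K ≤ Pool.Agent.W570.AV.seg (fun _ => 1) K :=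
      Pool.Agent.W570.AV.mean_le hK.1 hK.2.1 hK.2.2 _ measurable_const
    have a2 : meanInv (fun _ => 1) (simplex n) =
        ENNReal.ofReal ((n.factorial : ℝ) ^ 2 / (2 * n + 1).factorial) :=
      Pool.Agent.W570.AV.mean_sx
    rw [Pool.Agent.W570.AV.seg_one hK.1 hK.2.1 hK.2.2] at a1
    rw [a2]
    exact a1
  exact ENNReal.inv_le_inv.2 h1

end Pool.Agent.Results.MP_5f4cdd_gt.AveragedMahler

end
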