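import Pool.Agent.R753.FN.G

/-!
# The `L^p`-Mahler volume of polytopes with few facets (no symmetry)

For a polytope `P` of `ℝⁿ` with at most `m` facets, in every position and for every `p > 0`,
`γ(p)^n M_∞(P)^(1+1/p) ≤ C(m,n)^(1/p) M_p(P)` with `γ(p) = p^(1/p) Γ(1+1/p)`.  Together with
Mahler's inequality this gives the inequality of Q1 up to a factor `(1-δ)^n` for the polytopes
with at most `(1+ε) n` facets and for all bodies close to them.
-/

set_option autoImplicit false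

noncomputable section

open MeasureTheory Set Filter
open scoped ENNReal Topology

namespace Pool.Agent.Results.MP_5f4cdd_gt.FacetCount

/-- convex bodies in `ℝⁿ` (in any position) -/
def Body {n : ℕ} (K : Set (Fin n → ℝ)) : Prop := Convex ℝ K ∧ IsCompact K ∧ (interior K).Nonempty

/-- The `L^p`-Mahler volume `M_p(K) = vol(K) ∫ exp(-h_{p,K}(y)) dy` for `0 < p < ∞`, where
`exp(-h_{p,K}(y)) = ((1/vol K) ∫_K exp(p⟨x,y⟩) dx)^(-1/p)`. -/
def mahlerVolume {n : ℕ} (p : ℝ) (K : Set (Fin n → ℝ)) : ℝ≥0∞ :=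
  volume K * ∫⁻ y : Fin n → ℝ, ENNReal.ofReal
    (((∫ x in K, Real.exp (p * ∑ i, x i * y i)) / (volume K).toReal) ^ (-(1 / p)))

/-- The classical Mahler volume `M_∞(K) = vol(K) ∫ exp(-h_K(y)) dy` (the case `p = ∞`), where
`h_K(y) = sup_{x ∈ K} ⟨x, y⟩`. -/
def mahlerInf {n : ℕ} (K : Set (Fin n → ℝ)) : ℝ≥0∞ :=
  volume K * ∫⁻ y : Fin n → ℝ, ENNReal.ofReal
    (Real.exp (-(sSup ((fun x : Fin n → ℝ => ∑ i, x i * y i) '' K))))

/-- the standard simplex `Δ_n` -/
def simplex (n : ℕ) : Set (Fin n → ℝ) := {z | (∀ i, 0 ≤ z i) ∧ ∑ i, z i ≤ 1}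

/-- the infimum of `M_p(Δ_n - x)` over `x ∈ Δ_n` -/
def simplexInf (n : ℕ) (p : ℝ) : ℝ≥0∞ :=
  ⨅ x ∈ simplex n, mahlerVolume p ((fun z : Fin n → ℝ => z - x) '' simplex n)

/-- the polyhedron `{x ∈ ℝⁿ : ⟨x, u_k⟩ ≤ b_k for all k}` with (at most) `m` facets -/
def polyhedron {n m : ℕ} (u : Fin m → (Fin n → ℝ)) (b : Fin m → ℝ) : Set (Fin n → ℝ) :=
  {x | ∀ k, ∑ i, x i * u k i ≤ b k}

/-- the constant `γ(p) = p^(1/p) Γ(1+1/p)` -/
def gamma (p : ℝ) : ℝ := p ^ (1 / p) * Real.Gamma (1 + 1 / p)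

/-- the rate `r(p) = e^(1+1/p) p^(1/p) Γ(1+1/p)`; by the result `Cones` it is the limit of
`(inf_x M_p(Δ_n - x))^(1/n)` -/
def rate (p : ℝ) : ℝ := Real.exp (1 + 1 / p) * p ^ (1 / p) * Real.Gamma (1 + 1 / p)

/-- the growth rate `g(a) = a^a/(a-1)^(a-1)` of the binomial coefficients `C(an,n)` -/
def growth (a : ℝ) : ℝ := a ^ a / (a - 1) ^ (a - 1)

lemma poly_convex {n m : ℕ} (u : Fin m → (Fin n → ℝ)) (b : Fin m → ℝ) :
    Convex ℝ (polyhedron u b) := by
  intro x hx y hy s t hs ht hst k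
  have e : ∑ i, (s • x + t • y) i * u k i = s * ∑ i, x i * u k i + t * ∑ i, y i * u k i := by
    rw [Finset.mul_sum, Finset.mul_sum, ← Finset.sum_add_distrib]
    refine Finset.sum_congr rfl fun i _ => ?_
    simp only [Pi.add_apply, Pi.smul_apply, smul_eq_mul]
    ring
  rw [e]
  have h1 := mul_le_mul_of_nonneg_left (hx k) hs
  have h2 := mul_le_mul_of_nonneg_left (hy k) ht
  have h3 : s * b k + t * b k = b k := by rw [← add_mul, hst, one_mul]
  linarith

lemma poly_closed {n m : ℕ} (u : Fin m → (Fin n → ℝ)) (b : Fin m → ℝ) :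
    IsClosed (polyhedron u b) := by
  have : polyhedron u b = ⋂ k, {x | ∑ i, x i * u k i ≤ b k} := by
    ext x; simp [polyhedron]
  rw [this]
  exact isClosed_iInter fun k => isClosed_le (by fun_prop) continuous_const

lemma poly_body {n m : ℕ} {u : Fin m → (Fin n → ℝ)} {b : Fin m → ℝ} {K : Set (Fin n → ℝ)}
    (hb : Bornology.IsBounded (polyhedron u b)) (hK : Body K) (h : K ⊆ polyhedron u b) :
    Body (polyhedron u b) :=
  ⟨poly_convex u b, Metric.isCompact_of_isClosed_isBounded (poly_closed u b) hb,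
    hK.2.2.mono (interior_mono h)⟩

lemma base_eq {p : ℝ} (κ : ℝ) (a : ℝ) (hκ : 0 < κ) :
    Pool.Agent.R753.FN.base p (Real.exp 1) κ (Pool.Agent.R753.FN.HH a) =
      rate p / (κ ^ (1 + 1 / p) * growth a ^ (1 / p)) :=
  Pool.Agent.R753.FN.base_eps p κ _ hκ

lemma rate_pos {p : ℝ} (hp : 0 < p) : 0 < rate p := Pool.Agent.TH649.LP.eps_pos hp

/-- **The `L^p`-Mahler volume of polytopes with few facets.** -/
theorem result :
    -- (1) polytopes `P` with at most `m` facets and bodies `K ⊆ P`, in every position, every `p`: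
    -- the comparison with the Mahler volume (the case `K = P` is
    -- `γ(p)^n M_∞(P)^(1+1/p) ≤ C(m,n)^(1/p) M_p(P)`)
    (∀ n m : ℕ, 1 ≤ n → ∀ (u : Fin m → (Fin n → ℝ)) (b : Fin m → ℝ),
      Bornology.IsBounded (polyhedron u b) → ∀ K : Set (Fin n → ℝ), Body K → K ⊆ polyhedron u b →
      ∀ p : ℝ, 0 < p → ENNReal.ofReal (gamma p ^ n) *
        (volume K / volume (polyhedron u b) * mahlerInf (polyhedron u b)) ^ (1 + 1 / p) ≤
          (m.choose n : ℝ≥0∞) ^ (1 / p) * mahlerVolume p K) ∧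
    -- (2) the lower bound obtained from Mahler's inequality
    (∀ n m : ℕ, 1 ≤ n → ∀ (u : Fin m → (Fin n → ℝ)) (b : Fin m → ℝ),
      Bornology.IsBounded (polyhedron u b) → ∀ K : Set (Fin n → ℝ), Body K → K ⊆ polyhedron u b →
      ∀ p : ℝ, 0 < p → ENNReal.ofReal (gamma p ^ n) *
        (volume K / volume (polyhedron u b) *
          ENNReal.ofReal (((n:ℝ) + 1) ^ (n + 1) / n.factorial)) ^ (1 + 1 / p) ≤
          (m.choose n : ℝ≥0∞) ^ (1 / p) * mahlerVolume p K) ∧
    -- (3) at most `a n` facets: the base `r(p)/g(a)^(1/p)`, where `g(a) → 1` as `a → 1`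
    (∀ p a κ : ℝ, 0 < p → 1 < a → 0 < κ → ∀ n m : ℕ, 1 ≤ n → (m:ℝ) ≤ a * n →
      ∀ (u : Fin m → (Fin n → ℝ)) (b : Fin m → ℝ), Bornology.IsBounded (polyhedron u b) →
      ∀ K : Set (Fin n → ℝ), Body K → K ⊆ polyhedron u b →
      volume (polyhedron u b) ≤ ENNReal.ofReal (κ ^ n) * volume K →
      ENNReal.ofReal ((rate p / (κ ^ (1 + 1 / p) * growth a ^ (1 / p))) ^ n) ≤
        mahlerVolume p K) ∧
    Tendsto growth (𝓝[>] 1) (𝓝 1) ∧
    -- (4) the inequality of Q1 up to `(1-δ)^n` for polytopes with at most `(1+ε) n` facets, and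
    -- for bodies close to them
    (∀ p δ : ℝ, 0 < p → 0 < δ → δ < 1 → ∃ ε : ℝ, 0 < ε ∧ ∃ n₀ : ℕ, ∀ n m : ℕ, n₀ ≤ n →
      (m:ℝ) ≤ (1 + ε) * n → ∀ (u : Fin m → (Fin n → ℝ)) (b : Fin m → ℝ),
      Bornology.IsBounded (polyhedron u b) →
      ∀ K : Set (Fin n → ℝ), Body K → K ⊆ polyhedron u b →
      volume (polyhedron u b) ≤ ENNReal.ofReal ((1 + ε) ^ n) * volume K →
      ENNReal.ofReal ((1 - δ) ^ n) * simplexInf n p ≤ mahlerVolume p K) ∧
    -- (5) the strict inequality of Q1 if the Mahler volume of `P` is at least `s^n`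
    (∀ p a κ s : ℝ, 0 < p → 1 < a → 0 < κ → 0 < s →
      growth a < (s / (Real.exp 1 * κ)) ^ (p + 1) → ∃ n₀ : ℕ, ∀ n m : ℕ, n₀ ≤ n →
      (m:ℝ) ≤ a * n → ∀ (u : Fin m → (Fin n → ℝ)) (b : Fin m → ℝ),
      Bornology.IsBounded (polyhedron u b) →
      ∀ K : Set (Fin n → ℝ), Body K → K ⊆ polyhedron u b →
      volume (polyhedron u b) ≤ ENNReal.ofReal (κ ^ n) * volume K →
      ENNReal.ofReal (s ^ n) ≤ mahlerInf (polyhedron u b) →
      simplexInf n p < mahlerVolume p K) := by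
  have h3 : ∀ p a κ : ℝ, 0 < p → 1 < a → 0 < κ → ∀ n m : ℕ, 1 ≤ n → (m:ℝ) ≤ a * n →
      ∀ (u : Fin m → (Fin n → ℝ)) (b : Fin m → ℝ), Bornology.IsBounded (polyhedron u b) →
      ∀ K : Set (Fin n → ℝ), Body K → K ⊆ polyhedron u b →
      volume (polyhedron u b) ≤ ENNReal.ofReal (κ ^ n) * volume K →
      ENNReal.ofReal ((rate p / (κ ^ (1 + 1 / p) * growth a ^ (1 / p))) ^ n) ≤
        mahlerVolume p K := by
    intro p a κ hp ha hκ n m hn hm u b hb K hK hKP hV
    have hP := poly_body hb hK hKP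
    have h := Pool.Agent.R753.FN.low_bound hn hb hKP hK.1 hK.2.1 hK.2.2 hp (Real.exp_pos 1) hκ
      (Pool.Agent.R753.FN.HH_pos ha) (Pool.Agent.R753.FN.choose_le ha hm) hV
      (Pool.Agent.R753.FN.mahl_e hP.1 hP.2.1 hP.2.2)
    rw [base_eq κ a hκ] at h
    exact h
  refine ⟨?_, ?_, h3, Pool.Agent.R753.FN.tendsto_HH, ?_, ?_⟩
  · intro n m hn u b hb K hK hKP p hp
    have h := Pool.Agent.R753.FN.main_ineq hn hb hKP hK.1 hK.2.1 hK.2.2 hp
    have hG := Real.Gamma_pos_of_pos (by positivity : 0 < 1 + 1 / p)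
    rw [← ENNReal.ofReal_pow (by positivity)] at h
    exact h
  · intro n m hn u b hb K hK hKP p hp
    have h := Pool.Agent.R753.FN.main_ineq hn hb hKP hK.1 hK.2.1 hK.2.2 hp
    have hG := Real.Gamma_pos_of_pos (by positivity : 0 < 1 + 1 / p)
    rw [← ENNReal.ofReal_pow (by positivity)] at h
    have hP := poly_body hb hK hKP
    refine le_trans (mul_le_mul_right (ENNReal.rpow_le_rpow (mul_le_mul_right ?_ _) ?_) _) h
    · exact Pool.Agent.R753.FN.mahl hP.1 hP.2.1 hP.2.2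
    · positivity
  · intro p δ hp hδ hδ1
    have hr := rate_pos hp
    -- a base between
    obtain ⟨c, hc1, hc2⟩ := exists_between (show rate p < rate p / (1 - δ) by
      rw [lt_div_iff₀ (by linarith)]
      nlinarith)
    have hc0 : 0 < c := hr.trans hc1
    obtain ⟨n1, hn1⟩ := Pool.Agent.TH649.LP.II_lt hp hc1
    have hlim : Tendsto (fun a : ℝ => rate p / (a ^ (1 + 1 / p) * growth a ^ (1 / p)))
        (𝓝[>] 1) (𝓝 (rate p)) := by
      have e1 : Tendsto (fun a : ℝ => a ^ (1 + 1 / p)) (𝓝[>] 1) (𝓝 1) := by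
        have h : Tendsto (fun a : ℝ => a ^ (1 + 1 / p)) (𝓝 1) (𝓝 ((1:ℝ) ^ (1 + 1 / p))) :=
          (Real.continuousAt_rpow_const 1 _ (Or.inl one_ne_zero))
        rw [Real.one_rpow] at h
        exact h.mono_left nhdsWithin_le_nhds
      have e2 : Tendsto (fun a : ℝ => growth a ^ (1 / p)) (𝓝[>] 1) (𝓝 1) := by
        have h : Tendsto (fun a : ℝ => a ^ (1 / p)) (𝓝 1) (𝓝 ((1:ℝ) ^ (1 / p))) :=
          (Real.continuousAt_rpow_const 1 _ (Or.inl one_ne_zero))
        rw [Real.one_rpow] at h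
        exact h.comp Pool.Agent.R753.FN.tendsto_HH
      have e3 := (tendsto_const_nhds (x := rate p)).div (e1.mul e2) (by norm_num)
      rw [mul_one, div_one] at e3
      exact e3
    have hlt : (1 - δ) * c < rate p := by
      rw [lt_div_iff₀ (by linarith)] at hc2
      linarith
    have hev := (hlim.eventually (lt_mem_nhds hlt)).and
      (self_mem_nhdsWithin : ∀ᶠ a : ℝ in 𝓝[>] 1, a ∈ Ioi (1:ℝ))
    obtain ⟨a, ha1, ha2⟩ := hev.exists
    have ha : (1:ℝ) < a := ha2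
    refine ⟨a - 1, by linarith, max n1 1, fun n m hn hm u b hb K hK hKP hV => ?_⟩
    rw [add_sub_cancel] at hm hV
    have h := h3 p a a hp ha (by linarith) n m ((le_max_right _ _).trans hn) hm u b hb K hK hKP hV
    refine le_trans ?_ h
    have h5 := hn1 n ((le_max_left _ _).trans hn)
    calc ENNReal.ofReal ((1 - δ) ^ n) * simplexInf n p
        ≤ ENNReal.ofReal ((1 - δ) ^ n) * ENNReal.ofReal (c ^ n) := mul_le_mul_right h5.le _
      _ = ENNReal.ofReal (((1 - δ) * c) ^ n) := by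
          rw [← ENNReal.ofReal_mul (pow_nonneg (by linarith) n), mul_pow]
      _ ≤ _ := by
          apply ENNReal.ofReal_le_ofReal
          apply pow_le_pow_left₀ _ ha1.le
          exact mul_nonneg (by linarith) hc0.le
  · intro p a κ s hp ha hκ hs hg
    have hr := rate_pos hp
    have hga : 0 < growth a := Pool.Agent.R753.FN.HH_pos ha
    have hG := Real.Gamma_pos_of_pos (by positivity : 0 < 1 + 1 / p)
    have hlt : rate p < Pool.Agent.R753.FN.base p s κ (growth a) := by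
      have h1 : growth a ^ (1 / p) < (s / (Real.exp 1 * κ)) ^ (1 + 1 / p) := by
        have h2 := Real.rpow_lt_rpow hga.le hg (by positivity : 0 < 1 / p)
        rw [← Real.rpow_mul (by positivity)] at h2
        have e : (p + 1) * (1 / p) = 1 + 1 / p := by field_simp
        rwa [e] at h2
      have h4 : (s / κ) ^ (1 + 1 / p) =
          Real.exp (1 + 1 / p) * (s / (Real.exp 1 * κ)) ^ (1 + 1 / p) := by
        have e : s / κ = Real.exp 1 * (s / (Real.exp 1 * κ)) := by field_simp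
        rw [e, Real.mul_rpow (Real.exp_pos 1).le (by positivity), ← Real.exp_mul, one_mul]
      unfold Pool.Agent.R753.FN.base rate
      rw [lt_div_iff₀ (by positivity), h4]
      have h5 : 0 < p ^ (1 / p) * Real.Gamma (1 + 1 / p) * Real.exp (1 + 1 / p) := by positivity
      have h6 := mul_lt_mul_of_pos_left h1 h5
      linarith
    obtain ⟨n1, hn1⟩ := Pool.Agent.TH649.LP.II_lt hp hlt
    refine ⟨max n1 1, fun n m hn hm u b hb K hK hKP hV hM => ?_⟩
    refine lt_of_lt_of_le (hn1 n ((le_max_left _ _).trans hn)) ?_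
    exact Pool.Agent.R753.FN.low_bound ((le_max_right _ _).trans hn) hb hKP hK.1 hK.2.1 hK.2.2 hp
      hs hκ hga (Pool.Agent.R753.FN.choose_le ha hm) hV hM

end Pool.Agent.Results.MP_5f4cdd_gt.FacetCount
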