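import Pool.Agent.R753.FV.G1

/-!
# The `L^p`-Mahler volume of polytopes with `(1+ε) n` vertices (no symmetry)

For every `p > 0` and `δ > 0` there is `ε > 0` such that in all high dimensions `n` the inequality
of Q1 holds up to the factor `(1-δ)^n` for all polytopes with at most `(1+ε) n` vertices, in every
position, and for all bodies `K ⊆ P` with `|P| ≤ (1+ε)^n |K|`.

Outline.  Let `P = conv {v_j}`, `j < N`, contain the origin in its interior, `q = 1/p`.  The
integral of `e^(a⟨x,y⟩)` over `P` is bounded through the cones of `(1, v_j)`, `j ∈ Q`, `|Q| = n+1`,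
in `ℝ^(n+1)`, and with a representation `∑ β_j v_j = 0`, `∑ β_j = 1`, `β_j > 0` of the origin the
missing factors are inserted: `e^(-h_(p,P)(y))` is at least a constant times
`e^(-μ) ∏_j (μ - ⟨v_j,y⟩)^q`, for every `μ`.  The integral of this function over `(μ, y)` is the
integral of a product of `N` Gamma densities over an `(n+1)`-dimensional subspace.  By the
Prékopa-Leindler inequality and a supporting functional the weights `β_j` can be chosen such that
this section is the largest one among the parallel sections; with a Gaussian weight in the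
orthogonal directions (second moments, Jensen) and the formula of Cauchy and Binet it is bounded
from below.
-/

set_option autoImplicit false

noncomputable section

open MeasureTheory Set Filter
open scoped ENNReal Topology

namespace Pool.Agent.Results.MP_5f4cdd_gt.FewVerticesGrowth

/-- convex bodies in `ℝⁿ` (in any position) -/
def Body {n : ℕ} (K : Set (Fin n → ℝ)) : Prop := Convex ℝ K ∧ IsCompact K ∧ (interior K).Nonempty

/-- The `L^p`-Mahler volume `M_p(K) = vol(K) ∫ exp(-h_{p,K}(y)) dy` for `0 < p < ∞`, where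
`exp(-h_{p,K}(y)) = ((1/vol K) ∫_K exp(p⟨x,y⟩) dx)^(-1/p)`. -/
def mahlerVolume {n : ℕ} (p : ℝ) (K : Set (Fin n → ℝ)) : ℝ≥0∞ :=
  volume K * ∫⁻ y : Fin n → ℝ, ENNReal.ofReal
    (((∫ x in K, Real.exp (p * ∑ i, x i * y i)) / (volume K).toReal) ^ (-(1 / p)))

/-- the standard simplex `Δ_n` -/
def simplex (n : ℕ) : Set (Fin n → ℝ) := {z | (∀ i, 0 ≤ z i) ∧ ∑ i, z i ≤ 1}

/-- the infimum of `M_p(Δ_n - x)` over `x ∈ Δ_n` -/
def simplexInf (n : ℕ) (p : ℝ) : ℝ≥0∞ :=
  ⨅ x ∈ simplex n, mahlerVolume p ((fun z : Fin n → ℝ => z - x) '' simplex n)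

/-- the rate `r(p) = e^(1+1/p) p^(1/p) Γ(1+1/p)`; by the result `Cones` it is the limit of
`(inf_x M_p(Δ_n - x))^(1/n)` -/
def rate (p : ℝ) : ℝ := Real.exp (1 + 1 / p) * p ^ (1 / p) * Real.Gamma (1 + 1 / p)

/-- the explicit lower bound for the convex hull of `N` points of `ℝⁿ`; with `k = N - (n+1)`,
`Γ(1+1/p)^N (2πe(1+1/p))^(-k/2) ε (a/p)^n (a^(n+1) (eσ)^k/(n+1))^(1/p)
  ((n+1)^(n+1)/(n! C(N,n+1)))^(1+1/p)` -/
def lowerBound (N n : ℕ) (p a σ ε : ℝ) : ℝ :=
  Real.Gamma (1 + 1 / p) ^ N * Real.exp (-(((N - (n + 1) : ℕ) : ℝ) / 2)) *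
    ((2 * Real.pi * (1 + 1 / p)) ^ ((((N - (n + 1) : ℕ) : ℝ)) / 2))⁻¹ * (ε * (a / p) ^ n) *
    (a ^ (n + 1) * (Real.exp 1 * σ) ^ (N - (n + 1)) / ((n:ℝ) + 1)) ^ (1 / p) *
    (((n:ℝ) + 1) ^ (n + 1) / (n.factorial * (N.choose (n + 1) : ℝ))) ^ (1 + 1 / p)

lemma vol_pos {n : ℕ} {K : Set (Fin n → ℝ)} (hK : (interior K).Nonempty) : 0 < volume K :=
  (isOpen_interior.measure_pos volume hK).trans_le (measure_mono interior_subset)

/-- `M_p` of a larger body -/
lemma mono {n : ℕ} {K P : Set (Fin n → ℝ)} (hK : Body K) (hP : IsCompact P) (hKP : K ⊆ P)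
    {p θ : ℝ} (hp : 0 < p) (hθ : 0 < θ) (hV : volume P ≤ ENNReal.ofReal (θ ^ n) * volume K) :
    mahlerVolume p P ≤ ENNReal.ofReal ((θ ^ (1 + 1 / p)) ^ n) * mahlerVolume p K := by
  have hVK := vol_pos hK.2.2
  have hVP : 0 < volume P := hVK.trans_le (measure_mono hKP)
  have h2 := Pool.Agent.TH589.FF.lp_mono (Pool.Agent.R753.FN.lift_compact hK.2.1)
    (Pool.Agent.R753.FN.lift_compact hP) (Pool.Agent.R753.FN.lift_mono hKP)
    (by rw [Pool.Agent.R753.FN.vol_lift]; exact hVK) hp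
  rw [Pool.Agent.R753.FN.vol_lift, Pool.Agent.R753.FN.vol_lift,
    Pool.Agent.R753.FN.MV_eq hP hVP, Pool.Agent.R753.FN.MV_eq hK.2.1 hVK] at h2
  refine h2.trans (mul_le_mul_left ?_ _)
  have h3 : volume P / volume K ≤ ENNReal.ofReal (θ ^ n) :=
    (ENNReal.div_le_iff hVK.ne' hK.2.1.measure_lt_top.ne).2 hV
  refine (ENNReal.rpow_le_rpow h3 (by positivity)).trans (le_of_eq ?_)
  rw [ENNReal.ofReal_rpow_of_pos (by positivity)]
  congr 1
  rw [← Real.rpow_natCast, ← Real.rpow_natCast, ← Real.rpow_mul hθ.le, ← Real.rpow_mul hθ.le,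
    mul_comm]

/-- **The `L^p`-Mahler volume of polytopes with few vertices.** -/
theorem result :
    -- (1) an explicit lower bound for the convex hull of `N` points, every position, every `p`
    (∀ n N : ℕ, ∀ v : Fin N → (Fin n → ℝ), (interior (convexHull ℝ (range v))).Nonempty →
      ∀ p a σ ε : ℝ, 0 < p → 0 < a → 0 < σ → 0 < ε → a + σ = p * (1 - ε) →
        ENNReal.ofReal (lowerBound N n p a σ ε) ≤ mahlerVolume p (convexHull ℝ (range v))) ∧
    -- (2) at most `(1+θ) n` vertices: every base below `r(p)`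
    (∀ p c : ℝ, 0 < p → 0 < c → c < rate p → ∃ θ : ℝ, 0 < θ ∧ ∃ n₀ : ℕ, ∀ n N : ℕ, n₀ ≤ n →
      (N:ℝ) ≤ (1 + θ) * n → ∀ v : Fin N → (Fin n → ℝ), ∀ K : Set (Fin n → ℝ), Body K →
      K ⊆ convexHull ℝ (range v) →
      volume (convexHull ℝ (range v)) ≤ ENNReal.ofReal ((1 + θ) ^ n) * volume K →
        ENNReal.ofReal (c ^ n) ≤ mahlerVolume p K) ∧
    -- (3) the inequality of Q1 up to `(1-δ)^n` for polytopes with at most `(1+ε) n` vertices, and
    -- for bodies close to them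
    (∀ p δ : ℝ, 0 < p → 0 < δ → δ < 1 → ∃ ε : ℝ, 0 < ε ∧ ∃ n₀ : ℕ, ∀ n N : ℕ, n₀ ≤ n →
      (N:ℝ) ≤ (1 + ε) * n → ∀ v : Fin N → (Fin n → ℝ), ∀ K : Set (Fin n → ℝ), Body K →
      K ⊆ convexHull ℝ (range v) →
      volume (convexHull ℝ (range v)) ≤ ENNReal.ofReal ((1 + ε) ^ n) * volume K →
        ENNReal.ofReal ((1 - δ) ^ n) * simplexInf n p ≤ mahlerVolume p K) := by
  have h2 : ∀ p c : ℝ, 0 < p → 0 < c → c < rate p → ∃ θ : ℝ, 0 < θ ∧ ∃ n₀ : ℕ, ∀ n N : ℕ,
      n₀ ≤ n → (N:ℝ) ≤ (1 + θ) * n → ∀ v : Fin N → (Fin n → ℝ), ∀ K : Set (Fin n → ℝ), Body K →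
      K ⊆ convexHull ℝ (range v) →
      volume (convexHull ℝ (range v)) ≤ ENNReal.ofReal ((1 + θ) ^ n) * volume K →
        ENNReal.ofReal (c ^ n) ≤ mahlerVolume p K := by
    intro p c hp hc hcr
    obtain ⟨c', hc1, hc2⟩ := exists_between hcr
    have hc'0 : 0 < c' := hc.trans hc1
    obtain ⟨θ₁, hθ₁, n₀, h⟩ := Pool.Agent.R753.FV.few_low hp hc'0 hc2
    -- a smaller `θ`
    have hlim : Tendsto (fun θ : ℝ => (1 + θ) ^ (1 + 1 / p) * c) (𝓝[>] 0) (𝓝 c) := by
      have h1 : ContinuousAt (fun θ : ℝ => (1 + θ) ^ (1 + 1 / p) * c) 0 := by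
        apply ContinuousAt.mul _ continuousAt_const
        apply ContinuousAt.rpow_const (by fun_prop)
        left
        norm_num
      have h2 := h1.tendsto
      simp only [add_zero, Real.one_rpow, one_mul] at h2
      exact h2.mono_left nhdsWithin_le_nhds
    have hI0 : ∀ᶠ x : ℝ in 𝓝[>] 0, x ∈ Ioi (0:ℝ) := self_mem_nhdsWithin
    have hI1 : ∀ᶠ x : ℝ in 𝓝[>] 0, x ∈ Iio θ₁ :=
      mem_nhdsWithin_of_mem_nhds (Iio_mem_nhds hθ₁)
    obtain ⟨θ, h1, h2, h3⟩ := ((hlim.eventually (gt_mem_nhds hc1)).and (hI0.and hI1)).exists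
    have hθ0 : 0 < θ := h2
    have hθ1 : θ < θ₁ := h3
    refine ⟨θ, hθ0, n₀, fun n N hn hN v K hK hKP hV => ?_⟩
    have hiP : (interior (Pool.Agent.R753.FV.hull v)).Nonempty := hK.2.2.mono (interior_mono hKP)
    have hN' : (N:ℝ) ≤ (1 + θ₁) * n := hN.trans
      (mul_le_mul_of_nonneg_right (by linarith) (Nat.cast_nonneg n))
    have h4 := h n N hn hN' v hiP
    have h5 := mono hK (Pool.Agent.R753.FV.hull_compact v) hKP hp (by linarith : 0 < 1 + θ) hV
    have hT : 0 < (1 + θ) ^ (1 + 1 / p) := by positivity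
    have h6 : ENNReal.ofReal (((1 + θ) ^ (1 + 1 / p)) ^ n) * ENNReal.ofReal (c ^ n) ≤
        ENNReal.ofReal (((1 + θ) ^ (1 + 1 / p)) ^ n) * mahlerVolume p K := by
      refine le_trans ?_ (h4.trans h5)
      rw [← ENNReal.ofReal_mul (by positivity), ← mul_pow]
      exact ENNReal.ofReal_le_ofReal (pow_le_pow_left₀ (by positivity) h1.le n)
    exact (ENNReal.mul_le_mul_iff_right
      (by rw [Ne, ENNReal.ofReal_eq_zero, not_le]; positivity) ENNReal.ofReal_ne_top).1 h6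
  refine ⟨fun n N v hi p a σ ε hp ha hσ hε h1 => ?_, h2, fun p δ hp hδ hδ1 => ?_⟩
  · exact Pool.Agent.R753.FV.main_low v (Pool.Agent.R753.FV.card_ge hi) hi hp ha hσ hε h1
  · have hr : 0 < rate p := Pool.Agent.TH649.LP.eps_pos hp
    obtain ⟨c, hc1, hc2⟩ := exists_between (show rate p < rate p / (1 - δ) by
      rw [lt_div_iff₀ (by linarith)]
      nlinarith)
    have hc0 : 0 < c := hr.trans hc1
    obtain ⟨n1, hn1⟩ := Pool.Agent.TH649.LP.II_lt hp hc1
    have hlt : (1 - δ) * c < rate p := by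
      rw [lt_div_iff₀ (by linarith)] at hc2
      linarith
    obtain ⟨ε, hε, n₀, h⟩ := h2 p ((1 - δ) * c) hp (mul_pos (by linarith) hc0) hlt
    refine ⟨ε, hε, max n₀ n1, fun n N hn hN v K hK hKP hV => ?_⟩
    refine le_trans ?_ (h n N ((le_max_left _ _).trans hn) hN v K hK hKP hV)
    rw [mul_pow, ENNReal.ofReal_mul (pow_nonneg (by linarith) n)]
    exact mul_le_mul_right (hn1 n ((le_max_right _ _).trans hn)).le _

end Pool.Agent.Results.MP_5f4cdd_gt.FewVerticesGrowth
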